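import Pool.Agent.Lib.LD.Def


/-! # LD (S8): an uncrossed separation of a 2-connected graph which is not a cycle

`ep E P` is the number of edges with an end in `P`. If a separation has adjacent `x, y`, it is uncrossed. Otherwise some side `P`
has `ep E P ≥ |P| + 2`; a smallest one is uncrossed: if `u, v` separate `x` and `y`, then `u ∈ P`, `v ∈ Q` (up to exchange) and
`ep E P ≤ ep E (P ∩ P') + [xu ∈ E] + ep E (P ∩ Q') + [uy ∈ E] ≤ |P ∩ P'| + 1 + |P ∩ Q'| + 1 ≤ |P| + 1`. -/

set_option autoImplicit false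

namespace H2U

open Finset H98M LD

variable {V : Type*} [DecidableEq V] {E : Finset (Sym2 V)} {Y : Finset V}

/-- The number of edges with an end in `P`. -/
def ep (E : Finset (Sym2 V)) (P : Finset V) : ℕ := (E.filter fun e => ∃ a ∈ P, a ∈ e).card

theorem mem_Y {x y : V} {P Q : Finset V} (h : Sep E Y x y P Q) {z : V} :
    z ∈ Y ↔ z = x ∨ z = y ∨ z ∈ P ∨ z ∈ Q := by
  rw [← h.eq, mem_insert, mem_insert, mem_union]

theorem card_Y {x y : V} {P Q : Finset V} (h : Sep E Y x y P Q) : Y.card = P.card + Q.card + 2 := by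
  rw [← h.eq, card_insert_of_notMem, card_insert_of_notMem, card_union_of_disjoint h.dis]
  · rw [mem_union]
    rintro (h1 | h1)
    · exact h.yP h1
    · exact h.yQ h1
  · rw [mem_insert, mem_union]
    rintro (h1 | h1 | h1)
    · exact h.ne h1
    · exact h.xP h1
    · exact h.xQ h1

theorem card_le (hT : TCY E Y) {x y : V} {P Q : Finset V} (h : Sep E Y x y P Q) (hxy : s(x, y) ∉ E) :
    E.card ≤ ep E P + ep E Q := by
  unfold ep
  refine le_trans (card_le_card ?_) (card_union_le _ _)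
  intro e he
  induction e using Sym2.ind with
  | _ a b =>
    have ha : a ∈ Y := hT.sub _ he a (Sym2.mem_mk_left a b)
    have hb : b ∈ Y := hT.sub _ he b (Sym2.mem_mk_right a b)
    have hab : a ≠ b := fun e => hT.loop _ he (by rw [Sym2.mk_isDiag_iff]; exact e)
    rw [mem_union, mem_filter, mem_filter]
    rcases (mem_Y h).1 ha with h1 | h1 | h1 | h1
    · rcases (mem_Y h).1 hb with h2 | h2 | h2 | h2
      · exact absurd (h1.trans h2.symm) hab
      · rw [h1, h2] at he
        exact absurd he hxy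
      · exact Or.inl ⟨he, b, h2, Sym2.mem_mk_right a b⟩
      · exact Or.inr ⟨he, b, h2, Sym2.mem_mk_right a b⟩
    · rcases (mem_Y h).1 hb with h2 | h2 | h2 | h2
      · rw [h1, h2, Sym2.eq_swap] at he
        exact absurd he hxy
      · exact absurd (h1.trans h2.symm) hab
      · exact Or.inl ⟨he, b, h2, Sym2.mem_mk_right a b⟩
      · exact Or.inr ⟨he, b, h2, Sym2.mem_mk_right a b⟩
    · exact Or.inl ⟨he, a, h1, Sym2.mem_mk_left a b⟩
    · exact Or.inr ⟨he, a, h1, Sym2.mem_mk_left a b⟩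

/-- A side without `u, v` cannot meet `P'`. -/
theorem not_out (hT : TCY E Y) {x y u v : V} {P Q P' Q' : Finset V} (h : Sep E Y x y P Q)
    (h' : Sep E Y u v P' Q') (hy : y ∈ Q') (hu : u ∉ P) (hv : v ∉ P) {a : V} (ha : a ∈ P) (ha' : a ∈ P') : False := by
  have hxY : x ∈ Y := (mem_Y h).2 (Or.inl rfl)
  have hyY : y ∈ Y := (mem_Y h).2 (Or.inr (Or.inl rfl))
  apply hT.conn' x hxY
  refine ⟨P ∩ P', (Y.erase x) \ (P ∩ P'), ⟨a, mem_inter.2 ⟨ha, ha'⟩⟩, ⟨y, ?_⟩, disjoint_sdiff, ?_, ?_⟩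
  · rw [mem_sdiff, mem_erase, mem_inter]
    exact ⟨⟨h.ne.symm, hyY⟩, fun h1 => h.yP h1.1⟩
  · apply union_sdiff_of_subset
    intro c hc
    rw [mem_inter] at hc
    rw [mem_erase]
    exact ⟨fun e => h.xP (e ▸ hc.1), (mem_Y h).2 (Or.inr (Or.inr (Or.inl hc.1)))⟩
  · intro c hc d hd he
    rw [mem_inter] at hc
    rw [mem_sdiff, mem_erase, mem_inter] at hd
    obtain ⟨⟨hdx, hdY⟩, hdn⟩ := hd
    rcases (mem_Y h).1 hdY with h1 | h1 | h1 | h1
    · exact hdx h1
    · rw [h1] at he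
      exact h'.noE c hc.2 y hy he
    · rcases (mem_Y h').1 hdY with h2 | h2 | h2 | h2
      · exact hu (h2 ▸ h1)
      · exact hv (h2 ▸ h1)
      · exact hdn ⟨h1, h2⟩
      · exact h'.noE c hc.2 d h2 he
    · exact h.noE c hc.1 d h1 he

theorem not_both (hT : TCY E Y) {x y u v : V} {P Q P' Q' : Finset V} (h : Sep E Y x y P Q)
    (h' : Sep E Y u v P' Q') (hx : x ∈ P') (hy : y ∈ Q') (hu : u ∉ P) (hv : v ∉ P) : False := by
  obtain ⟨a, ha⟩ := h.P0
  rcases (mem_Y h').1 ((mem_Y h).2 (Or.inr (Or.inr (Or.inl ha)))) with h2 | h2 | h2 | h2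
  · exact hu (h2 ▸ ha)
  · exact hv (h2 ▸ ha)
  · exact not_out hT h h' hy hu hv ha h2
  · exact not_out hT h.flip h'.symm hx hu hv ha h2

/-- The smaller separation. -/
theorem sep_new {x y u v : V} {P Q P' Q' : Finset V} (h : Sep E Y x y P Q)
    (h' : Sep E Y u v P' Q') (hy : y ∈ Q') (hu : u ∈ P) (hv : v ∈ Q) (hn : (P ∩ P').Nonempty) :
    Sep E Y x u (P ∩ P') (Y \ insert x (insert u (P ∩ P'))) where
  ne := fun e => h.xP (e ▸ hu)
  xP := fun h1 => h.xP (mem_inter.1 h1).1
  xQ := fun h1 => (mem_sdiff.1 h1).2 (mem_insert_self _ _)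
  yP := fun h1 => h'.xP (mem_inter.1 h1).2
  yQ := fun h1 => (mem_sdiff.1 h1).2 (mem_insert_of_mem (mem_insert_self _ _))
  P0 := hn
  Q0 := by
    refine ⟨y, mem_sdiff.2 ⟨(mem_Y h).2 (Or.inr (Or.inl rfl)), ?_⟩⟩
    rw [mem_insert, mem_insert, mem_inter]
    rintro (h1 | h1 | h1)
    · exact h.ne h1.symm
    · exact h.yP (h1 ▸ hu)
    · exact h.yP h1.1
  dis := by
    rw [disjoint_left]
    intro a ha h1
    exact (mem_sdiff.1 h1).2 (mem_insert_of_mem (mem_insert_of_mem ha))
  eq := by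
    ext z
    simp only [mem_insert, mem_union, mem_sdiff]
    constructor
    · rintro (h1 | h1 | h1 | h1)
      · exact (mem_Y h).2 (Or.inl h1)
      · exact (mem_Y h).2 (Or.inr (Or.inr (Or.inl (h1 ▸ hu))))
      · exact (mem_Y h).2 (Or.inr (Or.inr (Or.inl (mem_inter.1 h1).1)))
      · exact h1.1
    · intro hz
      by_cases h1 : z = x
      · exact Or.inl h1
      by_cases h2 : z = u
      · exact Or.inr (Or.inl h2)
      by_cases h3 : z ∈ P ∩ P'
      · exact Or.inr (Or.inr (Or.inl h3))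
      · exact Or.inr (Or.inr (Or.inr ⟨hz, fun h4 => h4.elim h1 fun h5 => h5.elim h2 h3⟩))
  noE := by
    intro a ha b hb he
    rw [mem_inter] at ha
    obtain ⟨hbY, hbn⟩ := mem_sdiff.1 hb
    rcases (mem_Y h).1 hbY with h1 | h1 | h1 | h1
    · exact hbn (h1 ▸ mem_insert_self _ _)
    · rw [h1] at he
      exact h'.noE a ha.2 y hy he
    · rcases (mem_Y h').1 hbY with h2 | h2 | h2 | h2
      · exact hbn (mem_insert_of_mem (h2 ▸ mem_insert_self _ _))
      · exact disjoint_left.1 h.dis h1 (h2 ▸ hv)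
      · exact hbn (mem_insert_of_mem (mem_insert_of_mem (mem_inter.2 ⟨h1, h2⟩)))
      · exact h'.noE a ha.2 b h2 he
    · exact h.noE a ha.1 b h1 he

theorem part {x y u v : V} {P Q P' Q' : Finset V} (h : Sep E Y x y P Q)
    (h' : Sep E Y u v P' Q') (hy : y ∈ Q') (hu : u ∈ P) (hv : v ∈ Q)
    (hna : ∀ x y P Q, Sep E Y x y P Q → s(x, y) ∉ E)
    (hmin : ∀ x y P₁ Q, Sep E Y x y P₁ Q → P₁.card < P.card → ep E P₁ ≤ P₁.card + 1) :
    ep E (P ∩ P') + (E.filter fun e => e = s(x, u)).card ≤ (P ∩ P').card + 1 := by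
  rcases (P ∩ P').eq_empty_or_nonempty with h0 | h0
  · rw [h0]
    have h1 : ep E (∅ : Finset V) = 0 := by
      unfold ep
      rw [card_eq_zero, filter_eq_empty_iff]
      rintro e _ ⟨a, ha, _⟩
      exact absurd ha (notMem_empty a)
    have h2 : (E.filter fun e => e = s(x, u)).card ≤ 1 := by
      refine le_trans (card_le_card ?_) (card_singleton s(x, u)).le
      intro e he
      rw [mem_singleton]
      exact (mem_filter.1 he).2
    rw [h1, card_empty]
    omega
  · have hS := sep_new h h' hy hu hv h0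
    have h1 := hna _ _ _ _ hS
    have h2 : (E.filter fun e => e = s(x, u)).card = 0 := by
      rw [card_eq_zero, filter_eq_empty_iff]
      rintro e he rfl
      exact h1 he
    have h3 : (P ∩ P').card < P.card := by
      apply card_lt_card
      refine ⟨inter_subset_left, fun h4 => h'.xP (mem_inter.1 (h4 hu)).2⟩
    have h4 := hmin _ _ _ _ hS h3
    omega

theorem core (hT : TCY E Y) {x y u v : V} {P Q P' Q' : Finset V} (h : Sep E Y x y P Q)
    (h' : Sep E Y u v P' Q') (hx : x ∈ P') (hy : y ∈ Q') (hu : u ∈ P) (hv : v ∈ Q)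
    (hna : ∀ x y P Q, Sep E Y x y P Q → s(x, y) ∉ E) (hK : P.card + 2 ≤ ep E P)
    (hmin : ∀ x y P₁ Q, Sep E Y x y P₁ Q → P₁.card < P.card → ep E P₁ ≤ P₁.card + 1) : False := by
  have h1 := part h h' hy hu hv hna hmin
  have h2 := part h.flip h'.symm hx hu hv hna hmin
  have h3 : ep E P ≤ (ep E (P ∩ P') + (E.filter fun e => e = s(x, u)).card) +
      (ep E (P ∩ Q') + (E.filter fun e => e = s(y, u)).card) := by
    unfold ep
    refine le_trans (card_le_card (t := ((E.filter fun e => ∃ a ∈ P ∩ P', a ∈ e) ∪ (E.filter fun e => e = s(x, u))) ∪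
      ((E.filter fun e => ∃ a ∈ P ∩ Q', a ∈ e) ∪ (E.filter fun e => e = s(y, u)))) ?_) ?_
    · intro e he
      rw [mem_filter] at he
      obtain ⟨heE, a, haP, hae⟩ := he
      obtain ⟨b, rfl⟩ := hae
      have haY : a ∈ Y := hT.sub _ heE a (Sym2.mem_mk_left a b)
      have hbY : b ∈ Y := hT.sub _ heE b (Sym2.mem_mk_right a b)
      have hab : a ≠ b := fun e => hT.loop _ heE (by rw [Sym2.mk_isDiag_iff]; exact e)
      simp only [mem_union, mem_filter]
      rcases (mem_Y h').1 haY with h4 | h4 | h4 | h4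
      · -- `a = u`
        rcases (mem_Y h).1 hbY with h5 | h5 | h5 | h5
        · exact Or.inl (Or.inr ⟨heE, by rw [h4, h5, Sym2.eq_swap]⟩)
        · exact Or.inr (Or.inr ⟨heE, by rw [h4, h5, Sym2.eq_swap]⟩)
        · rcases (mem_Y h').1 hbY with h6 | h6 | h6 | h6
          · exact absurd (h4.trans h6.symm) hab
          · exact absurd (h6 ▸ h5) (disjoint_right.1 h.dis hv)
          · exact Or.inl (Or.inl ⟨heE, b, mem_inter.2 ⟨h5, h6⟩, Sym2.mem_mk_right a b⟩)
          · exact Or.inr (Or.inl ⟨heE, b, mem_inter.2 ⟨h5, h6⟩, Sym2.mem_mk_right a b⟩)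
        · exact absurd heE (h.noE a haP b h5)
      · exact absurd (h4 ▸ haP) (disjoint_right.1 h.dis hv)
      · exact Or.inl (Or.inl ⟨heE, a, mem_inter.2 ⟨haP, h4⟩, Sym2.mem_mk_left a b⟩)
      · exact Or.inr (Or.inl ⟨heE, a, mem_inter.2 ⟨haP, h4⟩, Sym2.mem_mk_left a b⟩)
    · refine le_trans (card_union_le _ _) (Nat.add_le_add (card_union_le _ _) (card_union_le _ _))
  have h4 : (P ∩ P').card + (P ∩ Q').card + 1 ≤ P.card := by
    have h5 : Disjoint (P ∩ P') (P ∩ Q') := by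
      rw [disjoint_left]
      intro a ha hb
      exact disjoint_left.1 h'.dis (mem_inter.1 ha).2 (mem_inter.1 hb).2
    rw [← card_union_of_disjoint h5]
    have h6 : ((P ∩ P') ∪ (P ∩ Q')).card < P.card := by
      apply card_lt_card
      refine ⟨union_subset inter_subset_left inter_subset_left, fun h7 => ?_⟩
      rcases mem_union.1 (h7 hu) with h8 | h8
      · exact h'.xP (mem_inter.1 h8).2
      · exact h'.xQ (mem_inter.1 h8).2
    omega
  omega

/-- (S8), edge count form. -/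
theorem exists_unc' (hT : TCY E Y) (hE : Y.card + 1 ≤ E.card) (hs : ∃ x y P Q, Sep E Y x y P Q) :
    ∃ x y P Q, Sep E Y x y P Q ∧ Unc E Y x y := by
  by_cases hadj : ∃ x y P Q, Sep E Y x y P Q ∧ s(x, y) ∈ E
  · obtain ⟨x, y, P, Q, h, hxy⟩ := hadj
    exact ⟨x, y, P, Q, h, fun u v P' Q' h' h1 => h'.noE x h1.1 y h1.2 hxy⟩
  have hna : ∀ x y P Q, Sep E Y x y P Q → s(x, y) ∉ E := fun x y P Q h h1 => hadj ⟨x, y, P, Q, h, h1⟩
  have main : ∀ k : ℕ, ∀ x y P Q, Sep E Y x y P Q → P.card ≤ k → P.card + 2 ≤ ep E P →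
      ∃ x y P Q, Sep E Y x y P Q ∧ Unc E Y x y := by
    intro k
    induction k with
    | zero =>
      intro x y P Q h h1 _
      exact absurd (card_pos.2 h.P0) (by omega)
    | succ k ih =>
      intro x y P Q h h1 hK
      by_cases hmin : ∀ x y P₁ Q, Sep E Y x y P₁ Q → P₁.card < P.card → ep E P₁ ≤ P₁.card + 1
      · refine ⟨x, y, P, Q, h, fun u v P' Q' h' hc => ?_⟩
        obtain ⟨hx, hy⟩ := hc
        have huY : u ∈ Y := (mem_Y h').2 (Or.inl rfl)
        have hvY : v ∈ Y := (mem_Y h').2 (Or.inr (Or.inl rfl))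
        have hu : u ∈ P ∨ u ∈ Q := by
          rcases (mem_Y h).1 huY with h2 | h2 | h2
          · exact absurd hx (h2 ▸ h'.xP)
          · exact absurd hy (h2 ▸ h'.xQ)
          · exact h2
        have hv : v ∈ P ∨ v ∈ Q := by
          rcases (mem_Y h).1 hvY with h2 | h2 | h2
          · exact absurd hx (h2 ▸ h'.yP)
          · exact absurd hy (h2 ▸ h'.yQ)
          · exact h2
        rcases hu with hu | hu <;> rcases hv with hv | hv
        · exact not_both hT h.symm h' hx hy (disjoint_left.1 h.dis hu) (disjoint_left.1 h.dis hv)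
        · exact core hT h h' hx hy hu hv hna hK hmin
        · exact core hT h h'.flip hx hy hv hu hna hK hmin
        · exact not_both hT h h' hx hy (disjoint_right.1 h.dis hu) (disjoint_right.1 h.dis hv)
      · push Not at hmin
        obtain ⟨x₁, y₁, P₁, Q₁, h2, h3, h4⟩ := hmin
        exact ih x₁ y₁ P₁ Q₁ h2 (by omega) (by omega)
  obtain ⟨x, y, P, Q, h⟩ := hs
  have h1 := card_le hT h (hna _ _ _ _ h)
  have h2 := card_Y h
  by_cases h3 : P.card + 2 ≤ ep E P
  · exact main _ x y P Q h le_rfl h3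
  · exact main _ x y Q P h.symm le_rfl (by omega)

theorem two_le_dg (hT : TCY E Y) {v : V} (hv : v ∈ Y) : 2 ≤ H85TF.dg E v := by
  by_contra hc
  have h1 : H85TF.dg E v ≤ 1 := by omega
  unfold H85TF.dg at h1
  rw [card_le_one] at h1
  have h3 := hT.three
  by_cases hw : ∃ w, s(v, w) ∈ E
  · obtain ⟨w, hw⟩ := hw
    have hwY : w ∈ Y := hT.sub _ hw w (Sym2.mem_mk_right v w)
    have hvw : v ≠ w := fun e => hT.loop _ hw (by rw [Sym2.mk_isDiag_iff]; exact e)
    apply hT.conn' w hwY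
    refine ⟨{v}, (Y.erase w).erase v, singleton_nonempty v, ?_, ?_, ?_, ?_⟩
    · rw [← card_pos, card_erase_of_mem (mem_erase.2 ⟨hvw, hv⟩), card_erase_of_mem hwY]
      omega
    · rw [disjoint_singleton_left]
      exact fun h => (mem_erase.1 h).1 rfl
    · rw [singleton_union, insert_erase (mem_erase.2 ⟨hvw, hv⟩)]
    · intro x hx y hy he
      rw [mem_singleton] at hx
      subst hx
      have h4 := h1 s(x, w) (mem_filter.2 ⟨hw, Sym2.mem_mk_left x w⟩) s(x, y) (mem_filter.2 ⟨he, Sym2.mem_mk_left x y⟩)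
      rw [Sym2.congr_right] at h4
      exact (mem_erase.1 (mem_erase.1 hy).2).1 h4.symm
  · apply hT.conn
    refine ⟨{v}, Y.erase v, singleton_nonempty v, ?_, ?_, ?_, ?_⟩
    · rw [← card_pos, card_erase_of_mem hv]
      omega
    · rw [disjoint_singleton_left]
      exact fun h => (mem_erase.1 h).1 rfl
    · rw [singleton_union, insert_erase hv]
    · intro x hx y _ he
      rw [mem_singleton] at hx
      subst hx
      exact hw ⟨y, he⟩

theorem sum_dg (hT : TCY E Y) : ∑ v ∈ Y, H85TF.dg E v = 2 * E.card := by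
  unfold H85TF.dg
  have h1 : ∑ v ∈ Y, (E.filter fun e => v ∈ e).card = ∑ e ∈ E, (Y.filter fun v => v ∈ e).card := by
    simp only [card_filter]
    exact sum_comm
  rw [h1, mul_comm, ← smul_eq_mul, ← sum_const]
  refine sum_congr rfl fun e he => ?_
  induction e using Sym2.ind with
  | _ a b =>
    have ha : a ∈ Y := hT.sub _ he a (Sym2.mem_mk_left a b)
    have hb : b ∈ Y := hT.sub _ he b (Sym2.mem_mk_right a b)
    have hab : a ≠ b := fun e => hT.loop _ he (by rw [Sym2.mk_isDiag_iff]; exact e)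
    have h2 : (Y.filter fun v => v ∈ s(a, b)) = {a, b} := by
      ext z
      simp only [mem_filter, Sym2.mem_iff, mem_insert, mem_singleton]
      constructor
      · exact fun h => h.2
      · rintro (rfl | rfl)
        · exact ⟨ha, Or.inl rfl⟩
        · exact ⟨hb, Or.inr rfl⟩
    rw [h2, card_pair hab]

theorem card_edges (hT : TCY E Y) (hd : ¬ ∀ v ∈ Y, H85TF.dg E v = 2) : Y.card + 1 ≤ E.card := by
  push Not at hd
  obtain ⟨v, hv, hd⟩ := hd
  have h1 := sum_dg hT
  have h2 : ∑ u ∈ Y, 2 < ∑ u ∈ Y, H85TF.dg E u := by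
    refine sum_lt_sum (fun u hu => two_le_dg hT hu) ⟨v, hv, ?_⟩
    have := two_le_dg hT hv
    omega
  rw [sum_const, smul_eq_mul] at h2
  omega

/-- (S8). -/
theorem exists_unc (hT : TCY E Y) (hs : ∃ x y P Q, Sep E Y x y P Q) (hd : ¬ ∀ v ∈ Y, H85TF.dg E v = 2) :
    ∃ x y P Q, Sep E Y x y P Q ∧ Unc E Y x y :=
  exists_unc' hT (card_edges hT hd) hs

end H2U
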